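import Pool.Agent.H535R3.JY

/-!
# The phase-lock areas and the lines `B = ω r` in the whole plane

For the equation `φ' = (1/ω)(-sin φ + B + A cos τ)` the rotation number `ρ(B, A)` satisfies
`min (⌊B/ω⌋, 0) ≤ ρ(B, A) ≤ max (⌈B/ω⌉, 0)` at every point of the plane. So for `m ≥ 1` the
phase-lock area `L_m` lies in the open half-plane `B > ω (m - 1)`, to the right of the line
`Λ_{m-1}`; in particular it does not meet this line.
-/

set_option autoImplicit false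
open Filter Topology

namespace Pool.Agent.Results.MP_be172b_an.HalfPlanes

open H535R3

/-- The limit of `φ τ / τ` does not change when the argument is shifted by `π`. -/
theorem tendsto_shift {φ : ℝ → ℝ} {ρ : ℝ} (hρ : Tendsto (fun τ : ℝ => φ τ / τ) atTop (𝓝 ρ)) :
    Tendsto (fun τ : ℝ => φ (τ + Real.pi) / τ) atTop (𝓝 ρ) := by
  have h2 : Tendsto (fun t : ℝ => t + Real.pi) atTop atTop :=
    tendsto_atTop_add_const_right _ _ tendsto_id
  have h3 := hρ.comp h2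
  have h4 : Tendsto (fun t : ℝ => (t + Real.pi) / t) atTop (𝓝 1) := by
    have : Tendsto (fun t : ℝ => 1 + Real.pi / t) atTop (𝓝 (1 + 0)) :=
      tendsto_const_nhds.add (tendsto_const_nhds.div_atTop tendsto_id)
    rw [add_zero] at this
    refine this.congr' ?_
    filter_upwards [eventually_gt_atTop (0:ℝ)] with t ht
    field_simp
  have h5 := h3.mul h4
  rw [mul_one] at h5
  refine h5.congr' ?_
  filter_upwards [eventually_gt_atTop (0:ℝ)] with t ht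
  simp only [Function.comp]
  have : t + Real.pi ≠ 0 := by
    have := Real.pi_pos
    positivity
  field_simp

/-- The symmetry `(φ, τ, b) ↦ (-φ(τ + π), τ, -b)`. -/
theorem sol_neg {b a ε : ℝ} {φ : ℝ → ℝ} (h : Sol b a ε φ) :
    Sol (-b) a ε (fun t => -φ (t + Real.pi)) := by
  intro t
  have h1 := ((h (t + Real.pi)).comp_add_const t Real.pi).neg
  refine h1.congr_deriv ?_
  rw [Real.cos_add_pi, Real.sin_neg]
  ring

theorem tendsto_neg {φ : ℝ → ℝ} {ρ : ℝ} (hρ : Tendsto (fun τ : ℝ => φ τ / τ) atTop (𝓝 ρ)) :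
    Tendsto (fun τ : ℝ => -φ (τ + Real.pi) / τ) atTop (𝓝 (-ρ)) := by
  refine (tendsto_shift hρ).neg.congr fun τ => ?_
  ring

/-- To the left of the axis `b = n + 1` the rotation number is at most `n + 1`. -/
theorem upper_succ (n : ℕ) {b a ε : ℝ} (hb : b ≤ n + 1) (hε : 0 < ε) {φ : ℝ → ℝ}
    (hφ : Sol b a ε φ) {ρ : ℝ} (hρ : Tendsto (fun τ : ℝ => φ τ / τ) atTop (𝓝 ρ)) :
    ρ ≤ n + 1 := by
  have key : ∀ a' : ℝ, 0 ≤ a' → ∃ y, P b a' ε y ≤ y + 2 * Real.pi * ((n + 1 : ℕ) : ℝ) := by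
    intro a' ha'
    obtain ⟨y, hy⟩ := axis_le n (μ := a' / 2) (ε := ε) (by positivity) hε
    rw [mul_div_cancel₀ _ two_ne_zero] at hy
    refine ⟨y, ?_⟩
    have h1 : P b a' ε y ≤ P ((n:ℝ) + 1) a' ε y := by
      rcases hb.lt_or_eq with h | h
      · exact (P_lt_of_b h).le
      · rw [h]
    refine h1.trans ?_
    push_cast
    exact_mod_cast hy
  rcases le_total 0 a with ha | ha
  · have := rho_le (r := (n:ℝ) + 1) (m0 := n + 1) (by push_cast; ring) (key a ha) hφ hρ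
    exact this
  · have hψ : Sol b (-a) ε (fun t => φ (t + Real.pi)) := by
      intro t
      have h1 := (hφ (t + Real.pi)).comp_add_const t Real.pi
      refine h1.congr_deriv ?_
      simp only [Real.cos_add_pi]
      ring
    exact rho_le (r := (n:ℝ) + 1) (m0 := n + 1) (by push_cast; ring) (key (-a) (by linarith)) hψ
      (tendsto_shift hρ)

/-- For `b ≤ 0` the rotation number is at most `0`. -/
theorem upper_zero {b a ε : ℝ} (hb : b ≤ 0) {φ : ℝ → ℝ}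
    (hφ : Sol b a ε φ) {ρ : ℝ} (hρ : Tendsto (fun τ : ℝ => φ τ / τ) atTop (𝓝 ρ)) :
    ρ ≤ 0 := by
  have hψ := sol_neg hφ
  obtain ⟨m, hm⟩ : ∃ m : ℤ, φ 0 < -φ (0 + Real.pi) + 2 * Real.pi * m := by
    obtain ⟨m, hm⟩ := exists_int_gt ((φ 0 + φ (0 + Real.pi)) / (2 * Real.pi))
    refine ⟨m, ?_⟩
    rw [div_lt_iff₀ Real.two_pi_pos] at hm
    linarith
  have hlt : ∀ t : ℝ, 0 < t → φ t < -φ (t + Real.pi) + 2 * Real.pi * m := by
    intro t ht
    rcases hb.lt_or_eq with h | h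
    · exact hφ.lt_of_b_lt (hψ.add_two_pi m) (by linarith) hm.le ht
    · subst h
      rw [neg_zero] at hψ
      exact hφ.lt_of_lt (hψ.add_two_pi m) (s := 0) hm t
  have h1 : Tendsto (fun τ : ℝ => -φ (τ + Real.pi) / τ + 2 * Real.pi * m / τ) atTop
      (𝓝 (-ρ + 0)) := (tendsto_neg hρ).add (tendsto_const_nhds.div_atTop tendsto_id)
  have h2 : ρ ≤ -ρ + 0 := by
    refine le_of_tendsto_of_tendsto hρ h1 ?_
    filter_upwards [eventually_gt_atTop (0:ℝ)] with t ht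
    rw [← add_div]
    exact div_le_div_of_nonneg_right (hlt t ht).le ht.le
  linarith

theorem upper {b a ε : ℝ} (hε : 0 < ε) {φ : ℝ → ℝ}
    (hφ : Sol b a ε φ) {ρ : ℝ} (hρ : Tendsto (fun τ : ℝ => φ τ / τ) atTop (𝓝 ρ)) :
    ρ ≤ ((max ⌈b⌉ 0 : ℤ) : ℝ) := by
  rcases le_or_gt b 0 with hb | hb
  · have h1 := upper_zero hb hφ hρ
    have h2 : (0 : ℤ) ≤ max ⌈b⌉ 0 := le_max_right _ _
    have h3 : (0 : ℝ) ≤ ((max ⌈b⌉ 0 : ℤ) : ℝ) := by exact_mod_cast h2
    linarith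
  · have h0 : 0 < ⌈b⌉ := Int.ceil_pos.mpr hb
    obtain ⟨n, hn⟩ : ∃ n : ℕ, ⌈b⌉ = (n : ℤ) + 1 := ⟨(⌈b⌉ - 1).toNat, by omega⟩
    have hb1 : b ≤ (n : ℝ) + 1 := by
      have := Int.le_ceil b
      rw [hn] at this
      push_cast at this
      exact this
    have h1 := upper_succ n hb1 hε hφ hρ
    have h2 : (n : ℤ) + 1 ≤ max ⌈b⌉ 0 := by rw [← hn]; exact le_max_left _ _
    have h3 : (n : ℝ) + 1 ≤ ((max ⌈b⌉ 0 : ℤ) : ℝ) := by exact_mod_cast h2
    linarith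

theorem lower {b a ε : ℝ} (hε : 0 < ε) {φ : ℝ → ℝ}
    (hφ : Sol b a ε φ) {ρ : ℝ} (hρ : Tendsto (fun τ : ℝ => φ τ / τ) atTop (𝓝 ρ)) :
    ((min ⌊b⌋ 0 : ℤ) : ℝ) ≤ ρ := by
  have h1 := upper hε (sol_neg hφ) (tendsto_neg hρ)
  have h2 : max ⌈-b⌉ 0 = -min ⌊b⌋ 0 := by
    rw [Int.ceil_neg]
    omega
  rw [h2] at h1
  push_cast at h1 ⊢
  linarith

/-- **The rotation number in the whole plane.** Let `ω > 0`, `B`, `A` be real and let `φ` be a
solution of `φ' = (1/ω)(-sin φ + B + A cos τ)` with `φ(τ)/τ → ρ`. Then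
`min (⌊B/ω⌋, 0) ≤ ρ ≤ max (⌈B/ω⌉, 0)`. Hence if `ρ = m` is an integer, then `B > ω (m - 1)` for
`m ≥ 1` and `B < ω (m + 1)` for `m ≤ -1`; in particular `ρ ≤ r` on the line `B = ω r`, `r ≥ 1`. -/
theorem result : ∀ ω : ℝ, 0 < ω → ∀ B A : ℝ, ∀ φ : ℝ → ℝ,
    (∀ τ : ℝ, HasDerivAt φ (1 / ω * (-Real.sin (φ τ) + B + A * Real.cos τ)) τ) →
    ∀ ρ : ℝ, Tendsto (fun τ : ℝ => φ τ / τ) atTop (𝓝 ρ) →
      ((min ⌊B / ω⌋ 0 : ℤ) : ℝ) ≤ ρ ∧ ρ ≤ ((max ⌈B / ω⌉ 0 : ℤ) : ℝ) ∧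
      (∀ m : ℤ, ρ = m → (1 ≤ m → ω * ((m : ℝ) - 1) < B) ∧ (m ≤ -1 → B < ω * ((m : ℝ) + 1))) ∧
      (∀ r : ℕ, 1 ≤ r → B = ω * r → ρ ≤ r) := by
  intro ω hω B A φ hφ ρ hρ
  have hS : Sol (B / ω) (A / ω) (1 / ω) φ := by
    intro τ
    refine (hφ τ).congr_deriv ?_
    field_simp
    ring
  have hε : 0 < 1 / ω := by positivity
  have hu := upper hε hS hρ
  have hl := lower hε hS hρ
  refine ⟨hl, hu, ?_, ?_⟩
  · intro m hm
    rw [hm] at hu hl
    have hu' : m ≤ max ⌈B / ω⌉ 0 := by exact_mod_cast hu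
    have hl' : min ⌊B / ω⌋ 0 ≤ m := by exact_mod_cast hl
    constructor
    · intro h1
      have h2 : m ≤ ⌈B / ω⌉ := by omega
      have h3 : (m : ℝ) - 1 < B / ω := by
        have := Int.lt_ceil.mp (show m - 1 < ⌈B / ω⌉ by omega)
        push_cast at this
        exact this
      rw [lt_div_iff₀ hω] at h3
      linarith
    · intro h1
      have h2 : ⌊B / ω⌋ ≤ m := by omega
      have h3 : B / ω < (m : ℝ) + 1 := by
        have := Int.floor_lt.mp (show ⌊B / ω⌋ < m + 1 by omega)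
        push_cast at this
        exact this
      rw [div_lt_iff₀ hω] at h3
      linarith
  · intro r hr hB
    have h1 : B / ω = (r : ℝ) := by
      rw [hB]
      field_simp
    rw [h1, Int.ceil_natCast] at hu
    have h2 : max (r : ℤ) 0 = r := by omega
    rw [h2] at hu
    exact_mod_cast hu

end Pool.Agent.Results.MP_be172b_an.HalfPlanes
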